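import Mathlib

namespace Pool.Agent.Results.MP_514f39_an.NoPermutationIsBasis

open Filter Topology Finset

section defs

variable (𝕜 : Type*) [RCLike 𝕜] {E : Type*} [NormedAddCommGroup E] [NormedSpace 𝕜 E]

/-- `x` is a Schauder basis: every vector has exactly one scalar sequence `a` with
`v = ∑ a i • x i` (convergence in norm of the ordered series). -/
def IsSchauderBasis (x : ℕ → E) : Prop :=
  ∀ v : E, ∃! a : ℕ → 𝕜, Tendsto (fun M => ∑ i ∈ range M, a i • x i) atTop (𝓝 v)

/-- Property (U): every vector is the sum of some permuted expansion, and its scalar sequence is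
unique. -/
def PropertyU (x : ℕ → E) : Prop :=
  ∀ v : E, ∃ a : ℕ → 𝕜,
    (∃ σ : Equiv.Perm ℕ, Tendsto (fun M => ∑ i ∈ range M, a (σ i) • x (σ i)) atTop (𝓝 v)) ∧
    ∀ (b : ℕ → 𝕜) (π : Equiv.Perm ℕ),
      Tendsto (fun M => ∑ i ∈ range M, b (π i) • x (π i)) atTop (𝓝 v) → b = a

/-- `x` is minimal: no `x m` lies in the closed linear span of the other vectors. -/
def IsMinimal (x : ℕ → E) : Prop :=
  ∀ m, x m ∉ closure (Submodule.span 𝕜 (x '' {n | n ≠ m}) : Set E)

end defs

section order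

variable {𝕜 : Type*} [RCLike 𝕜]

/-- Ordering of a finite family of scalars with controlled initial sums. -/
lemma order_block_aux (N : ℕ) (a : ℕ → 𝕜) : ∀ K₀ ≤ N, ∃ ρ : Equiv.Perm ℕ,
    (∀ k, k < N ↔ ρ k < N) ∧ ∀ K ≤ K₀,
      ‖∑ k ∈ range K, a (ρ k)‖ ^ 2 ≤
        (‖∑ k ∈ range N, a k‖ + √(∑ k ∈ range N, ‖a k‖ ^ 2)) ^ 2
          + ∑ k ∈ range K, ‖a (ρ k)‖ ^ 2 := by
  intro K₀
  induction K₀ with
  | zero =>
    intro _
    refine ⟨Equiv.refl ℕ, by simp, ?_⟩
    intro K hK
    obtain rfl : K = 0 := by omega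
    rw [range_zero, sum_empty, sum_empty, norm_zero, add_zero, zero_pow two_ne_zero]
    positivity
  | succ K₀ ih =>
    intro hK₀
    obtain ⟨ρ, hρ, hb⟩ := ih (by omega)
    set s := ∑ k ∈ range N, a k with hs
    set A := √(∑ k ∈ range N, ‖a k‖ ^ 2) with hA
    set S := ∑ k ∈ range K₀, a (ρ k) with hS
    have hsρ : ∑ k ∈ range N, a (ρ k) = s := by
      rw [hs]
      exact Finset.sum_equiv ρ (fun k => by simpa using hρ k) (fun k _ => rfl)
    rcases lt_or_ge ‖S‖ ‖s‖ with hlt | hge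
    · refine ⟨ρ, hρ, ?_⟩
      intro K hK
      rcases Nat.lt_or_ge K (K₀ + 1) with h | h
      · exact hb K (by omega)
      · obtain rfl : K = K₀ + 1 := by omega
        rw [sum_range_succ, sum_range_succ, ← hS]
        have h1 : ‖a (ρ K₀)‖ ≤ A := by
          rw [hA]
          apply Real.le_sqrt_of_sq_le
          have h2 : ρ K₀ ∈ range N := by
            rw [mem_range]; exact (hρ K₀).1 (by omega)
          exact Finset.single_le_sum (f := fun k => ‖a k‖ ^ 2) (fun k _ => by positivity) h2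
        have h3 : ‖S + a (ρ K₀)‖ ≤ ‖s‖ + A :=
          (norm_add_le _ _).trans (add_le_add hlt.le h1)
        have h4 : ‖S + a (ρ K₀)‖ ^ 2 ≤ (‖s‖ + A) ^ 2 := by gcongr
        have h5 : 0 ≤ ∑ x ∈ range K₀, ‖a (ρ x)‖ ^ 2 := by positivity
        have h6 : 0 ≤ ‖a (ρ K₀)‖ ^ 2 := by positivity
        linarith
    · have hsum : ∑ k ∈ Finset.Ico K₀ N, a (ρ k) = s - S := by
        rw [Finset.sum_Ico_eq_sub _ (by omega), hsρ]
      have hre : ∑ k ∈ Finset.Ico K₀ N, RCLike.re (inner 𝕜 S (a (ρ k))) ≤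
          ∑ k ∈ Finset.Ico K₀ N, (0 : ℝ) := by
        rw [← map_sum, ← inner_sum, hsum, inner_sub_right, map_sub, inner_self_eq_norm_sq,
          sum_const_zero]
        have h1 := re_inner_le_norm (𝕜 := 𝕜) S s
        nlinarith [norm_nonneg S, norm_nonneg s]
      obtain ⟨k', hk', hk'le⟩ := Finset.exists_le_of_sum_le
        (Finset.nonempty_Ico.2 (by omega : K₀ < N)) hre
      rw [Finset.mem_Ico] at hk'
      let ρ' : Equiv.Perm ℕ := (Equiv.swap K₀ k').trans ρ
      have hρ'lt : ∀ k, k < K₀ → ρ' k = ρ k := by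
        intro k hk
        simp only [ρ', Equiv.trans_apply]
        rw [Equiv.swap_apply_of_ne_of_ne (by omega) (by omega)]
      have hρ'K : ρ' K₀ = ρ k' := by simp [ρ']
      have hsumlt : ∀ K ≤ K₀, ∀ f : ℕ → ℝ,
          ∑ k ∈ range K, f (ρ' k) = ∑ k ∈ range K, f (ρ k) := by
        intro K hK f
        refine Finset.sum_congr rfl fun k hk => ?_
        rw [hρ'lt k (by have := mem_range.1 hk; omega)]
      have hsumlt' : ∀ K ≤ K₀,
          ∑ k ∈ range K, a (ρ' k) = ∑ k ∈ range K, a (ρ k) := by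
        intro K hK
        refine Finset.sum_congr rfl fun k hk => ?_
        rw [hρ'lt k (by have := mem_range.1 hk; omega)]
      refine ⟨ρ', ?_, ?_⟩
      · intro k
        simp only [ρ', Equiv.trans_apply]
        rw [← hρ]
        by_cases h1 : k = K₀
        · subst h1
          simp only [Equiv.swap_apply_left]
          omega
        · by_cases h2 : k = k'
          · subst h2
            simp only [Equiv.swap_apply_right]
            omega
          · rw [Equiv.swap_apply_of_ne_of_ne h1 h2]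
      · intro K hK
        rcases Nat.lt_or_ge K (K₀ + 1) with h | h
        · rw [hsumlt' K (by omega), hsumlt K (by omega) (fun j => ‖a j‖ ^ 2)]
          exact hb K (by omega)
        · obtain rfl : K = K₀ + 1 := by omega
          rw [sum_range_succ, sum_range_succ, hsumlt' K₀ le_rfl,
            hsumlt K₀ le_rfl (fun j => ‖a j‖ ^ 2), hρ'K, ← hS, norm_add_sq (𝕜 := 𝕜)]
          have h1 := hb K₀ le_rfl
          linarith

lemma order_block (N : ℕ) (a : ℕ → 𝕜) : ∃ ρ : Equiv.Perm ℕ,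
    (∀ k, k < N ↔ ρ k < N) ∧ ∀ K ≤ N,
      ‖∑ k ∈ range K, a (ρ k)‖ ^ 2 ≤
        2 * ‖∑ k ∈ range N, a k‖ ^ 2 + 3 * ∑ k ∈ range N, ‖a k‖ ^ 2 := by
  obtain ⟨ρ, hρ, hb⟩ := order_block_aux N a N le_rfl
  refine ⟨ρ, hρ, ?_⟩
  intro K hK
  have h1 := hb K hK
  have h2 : ∑ k ∈ range K, ‖a (ρ k)‖ ^ 2 ≤ ∑ k ∈ range N, ‖a k‖ ^ 2 := by
    calc ∑ k ∈ range K, ‖a (ρ k)‖ ^ 2 ≤ ∑ k ∈ range N, ‖a (ρ k)‖ ^ 2 := by
          refine Finset.sum_le_sum_of_subset_of_nonneg ?_ fun _ _ _ => by positivity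
          exact range_subset_range.2 hK
      _ = ∑ k ∈ range N, ‖a k‖ ^ 2 :=
          Finset.sum_equiv ρ (fun k => by simpa using hρ k) (fun k _ => rfl)
  have h3 : √(∑ k ∈ range N, ‖a k‖ ^ 2) ^ 2 = ∑ k ∈ range N, ‖a k‖ ^ 2 :=
    Real.sq_sqrt (by positivity)
  set A := √(∑ k ∈ range N, ‖a k‖ ^ 2)
  nlinarith [sq_nonneg (‖∑ k ∈ range N, a k‖ - A)]

end order

section space

variable (𝕜 : Type) [RCLike 𝕜]

/-- The ambient space: two copies of `ℓ²`. -/
abbrev Amb := lp (fun _ : ℕ => 𝕜) 2 × lp (fun _ : ℕ × ℕ => 𝕜) 2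

/-- The closed subspace of the pairs `(s, a)` with `s N = ∑_{k<N} a (N,k)`. -/
def Esub : Submodule 𝕜 (Amb 𝕜) where
  carrier := {v | ∀ N, v.1 N = ∑ k ∈ range N, v.2 (N, k)}
  add_mem' := by
    intro v w hv hw N
    have h1 := hv N
    have h2 := hw N
    simp only [Prod.fst_add, Prod.snd_add, lp.coeFn_add, Pi.add_apply, sum_add_distrib]
    rw [h1, h2]
  zero_mem' := by
    intro N
    simp
  smul_mem' := by
    intro c v hv N
    have h1 := hv N
    simp only [Prod.smul_fst, Prod.smul_snd, lp.coeFn_smul, Pi.smul_apply, smul_eq_mul,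
      ← mul_sum]
    rw [h1]

lemma isClosed_Esub : IsClosed (Esub 𝕜 : Set (Amb 𝕜)) := by
  have h : (Esub 𝕜 : Set (Amb 𝕜)) = ⋂ N, {v | v.1 N = ∑ k ∈ range N, v.2 (N, k)} := by
    ext v
    simp [Esub]
  rw [h]
  refine isClosed_iInter fun N => ?_
  refine isClosed_eq ?_ ?_
  · exact (lp.evalCLM 𝕜 (fun _ : ℕ => 𝕜) 2 N).continuous.comp continuous_fst
  · refine continuous_finsetSum _ fun k _ => ?_
    exact (lp.evalCLM 𝕜 (fun _ : ℕ × ℕ => 𝕜) 2 (N, k)).continuous.comp continuous_snd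

/-- The vectors of the sequence, indexed by pairs. -/
noncomputable def vec (p : ℕ × ℕ) : Esub 𝕜 :=
  ⟨(if p.2 < p.1 then lp.single 2 p.1 (1 : 𝕜) else 0, lp.single 2 p (1 : 𝕜)), by
    intro N
    obtain ⟨M, j⟩ := p
    simp only
    by_cases hN : N = M
    · subst hN
      by_cases hj : j < N
      · rw [if_pos hj, lp.single_apply_self]
        rw [Finset.sum_eq_single j]
        · rw [lp.single_apply_self]
        · intro k _ hk
          rw [lp.single_apply_ne]
          intro h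
          exact hk (by simpa using congrArg Prod.snd h)
        · intro h
          exact absurd (mem_range.2 hj) h
      · rw [if_neg hj]
        symm
        simp only [lp.coeFn_zero, Pi.zero_apply]
        refine Finset.sum_eq_zero fun k hk => ?_
        rw [lp.single_apply_ne]
        intro h
        have : k = j := by simpa using congrArg Prod.snd h
        have := mem_range.1 hk
        omega
    · have h1 : (if j < M then lp.single 2 M (1 : 𝕜) else (0 : lp (fun _ : ℕ => 𝕜) 2)) N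
          = 0 := by
        split_ifs
        · rw [lp.single_apply_ne _ _ _ hN]
        · simp
      rw [h1]
      symm
      refine Finset.sum_eq_zero fun k _ => ?_
      rw [lp.single_apply_ne]
      intro h
      exact hN (by simpa using congrArg Prod.fst h)⟩

/-- The sequence. -/
noncomputable def seq (n : ℕ) : Esub 𝕜 := vec 𝕜 (Nat.unpair n)

/-- The coordinate functionals. -/
noncomputable def coord (p : ℕ × ℕ) : Esub 𝕜 →L[𝕜] 𝕜 :=
  ((lp.evalCLM 𝕜 (fun _ : ℕ × ℕ => 𝕜) 2 p).comp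
    (ContinuousLinearMap.snd 𝕜 (lp (fun _ : ℕ => 𝕜) 2) (lp (fun _ : ℕ × ℕ => 𝕜) 2))).comp
    (Esub 𝕜).subtypeL

lemma coord_apply (p : ℕ × ℕ) (v : Esub 𝕜) : coord 𝕜 p v = v.1.2 p := rfl

lemma coord_vec (p q : ℕ × ℕ) : coord 𝕜 p (vec 𝕜 q) = if p = q then 1 else 0 := by
  rw [coord_apply]
  simp only [vec]
  by_cases h : p = q
  · subst h
    rw [lp.single_apply_self, if_pos rfl]
  · rw [lp.single_apply_ne _ _ _ h, if_neg h]

lemma coord_seq (m n : ℕ) : coord 𝕜 (Nat.unpair m) (seq 𝕜 n) = if n = m then 1 else 0 := by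
  rw [seq, coord_vec]
  by_cases h : n = m
  · subst h; simp
  · rw [if_neg h, if_neg]
    intro h2
    exact h (by rw [← Nat.pair_unpair n, ← h2, Nat.pair_unpair])

/-- Coefficients of any convergent permuted expansion are the coordinates. -/
lemma coef_eq (b : ℕ → 𝕜) (π : Equiv.Perm ℕ) (v : Esub 𝕜)
    (h : Tendsto (fun M => ∑ i ∈ range M, b (π i) • seq 𝕜 (π i)) atTop (𝓝 v)) (n : ℕ) :
    b n = coord 𝕜 (Nat.unpair n) v := by
  have h1 := ((coord 𝕜 (Nat.unpair n)).continuous.tendsto v).comp h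
  have h2 : ∀ M, π.symm n < M →
      coord 𝕜 (Nat.unpair n) (∑ i ∈ range M, b (π i) • seq 𝕜 (π i)) = b n := by
    intro M hM
    rw [map_sum]
    rw [Finset.sum_eq_single (π.symm n)]
    · rw [map_smul, coord_seq, Equiv.apply_symm_apply, if_pos rfl, smul_eq_mul, mul_one]
    · intro i _ hi
      rw [map_smul, coord_seq, if_neg, smul_zero]
      intro h3
      exact hi (by rw [← h3, Equiv.symm_apply_apply])
    · intro h3
      exact absurd (mem_range.2 hM) h3
  have h3 : Tendsto (fun M => coord 𝕜 (Nat.unpair n) (∑ i ∈ range M, b (π i) • seq 𝕜 (π i)))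
      atTop (𝓝 (b n)) := by
    refine tendsto_const_nhds.congr' ?_
    filter_upwards [eventually_gt_atTop (π.symm n)] with M hM
    rw [h2 M hM]
  exact tendsto_nhds_unique h3 h1

lemma filter_pair_eq_range (N M : ℕ) :
    ∃ K ≤ N, (range N).filter (fun k => Nat.pair N k < M) = range K := by
  have h : ∀ L, ∃ K ≤ L, (range L).filter (fun k => Nat.pair N k < M) = range K := by
    intro L
    induction L with
    | zero => exact ⟨0, le_rfl, by simp⟩
    | succ L ih =>
      obtain ⟨K, hK, hKe⟩ := ih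
      by_cases hL : Nat.pair N L < M
      · refine ⟨L + 1, le_rfl, ?_⟩
        refine Finset.filter_true_of_mem fun k hk => ?_
        have hk' : k ≤ L := by have := mem_range.1 hk; omega
        rcases Nat.lt_or_ge k L with h1 | h1
        · exact (Nat.pair_lt_pair_right N h1).trans hL
        · obtain rfl : k = L := by omega
          exact hL
      · refine ⟨K, by omega, ?_⟩
        rw [Finset.range_add_one, Finset.filter_insert, if_neg hL, hKe]
  exact h N

/-- The blockwise permutation, as a permutation of the natural numbers. -/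
def blockPerm (ρ : ℕ → Equiv.Perm ℕ) : Equiv.Perm ℕ :=
  (Nat.pairEquiv.symm.trans (Equiv.prodShear (Equiv.refl ℕ) ρ)).trans Nat.pairEquiv

lemma unpair_blockPerm (ρ : ℕ → Equiv.Perm ℕ) (n : ℕ) :
    Nat.unpair (blockPerm ρ n) = ((Nat.unpair n).1, ρ (Nat.unpair n).1 (Nat.unpair n).2) := by
  simp [blockPerm]

lemma partial_fst (ρ : ℕ → Equiv.Perm ℕ) (hρ : ∀ N k, k < N ↔ ρ N k < N)
    (v : Esub 𝕜) (N M : ℕ) :
    (∑ i ∈ range M, (coord 𝕜 (Nat.unpair (blockPerm ρ i)) v) • seq 𝕜 (blockPerm ρ i)).1.1 N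
      = ∑ k ∈ (range N).filter (fun k => Nat.pair N k < M), v.1.2 (N, ρ N k) := by
  induction M with
  | zero => simp
  | succ M ih =>
    rw [Finset.sum_range_succ]
    have h1 : ∀ x y : Esub 𝕜, (x + y).1.1 N = x.1.1 N + y.1.1 N := fun x y => rfl
    rw [h1, ih]
    have h2 : ∀ (c : 𝕜) (x : Esub 𝕜), (c • x).1.1 N = c * x.1.1 N := fun c x => rfl
    rw [h2, coord_apply, unpair_blockPerm]
    have h3 : (seq 𝕜 (blockPerm ρ M)).1.1 N
        = if (Nat.unpair M).1 = N ∧ (Nat.unpair M).2 < N then 1 else 0 := by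
      rw [seq, unpair_blockPerm]
      simp only [vec]
      by_cases hN : (Nat.unpair M).1 = N
      · by_cases hk : (Nat.unpair M).2 < N
        · have hk' : ρ (Nat.unpair M).1 (Nat.unpair M).2 < (Nat.unpair M).1 := by
            rw [← hρ]; omega
          rw [if_pos hk', if_pos ⟨hN, hk⟩, hN, lp.single_apply_self]
        · have hk' : ¬ ρ (Nat.unpair M).1 (Nat.unpair M).2 < (Nat.unpair M).1 := by
            rw [← hρ]; omega
          rw [if_neg hk', if_neg (by tauto)]
          simp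
      · have hc : ¬ ((Nat.unpair M).1 = N ∧ (Nat.unpair M).2 < N) := by tauto
        rw [if_neg hc]
        split_ifs
        · rw [lp.single_apply_ne _ _ _ (fun h => hN h.symm)]
        · simp
    rw [h3]
    by_cases hcase : (Nat.unpair M).1 = N ∧ (Nat.unpair M).2 < N
    · rw [if_pos hcase, mul_one]
      obtain ⟨hN, hk⟩ := hcase
      have hpair : Nat.pair N (Nat.unpair M).2 = M := by
        rw [← hN, Nat.pair_unpair]
      have h4 : (range N).filter (fun k => Nat.pair N k < M + 1)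
          = insert (Nat.unpair M).2 ((range N).filter (fun k => Nat.pair N k < M)) := by
        ext k
        simp only [mem_filter, mem_range, mem_insert]
        constructor
        · rintro ⟨h5, h6⟩
          rcases Nat.lt_or_ge (Nat.pair N k) M with h7 | h7
          · exact Or.inr ⟨h5, h7⟩
          · left
            have h8 : Nat.pair N k = M := by omega
            have h9 := congrArg Nat.unpair h8
            rw [Nat.unpair_pair] at h9
            rw [← h9]
        · rintro (h5 | ⟨h5, h6⟩)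
          · subst h5
            exact ⟨hk, by omega⟩
          · exact ⟨h5, by omega⟩
      rw [h4, Finset.sum_insert, add_comm, hN]
      simp only [mem_filter, mem_range, not_and]
      intro _
      omega
    · rw [if_neg hcase, mul_zero, add_zero]
      refine Finset.sum_congr ?_ fun _ _ => rfl
      ext k
      simp only [mem_filter, mem_range]
      constructor
      · rintro ⟨h5, h6⟩
        exact ⟨h5, by omega⟩
      · rintro ⟨h5, h6⟩
        refine ⟨h5, ?_⟩
        rcases Nat.lt_or_ge (Nat.pair N k) M with h7 | h7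
        · exact h7
        · exfalso
          have h8 : Nat.pair N k = M := by omega
          apply hcase
          rw [← h8, Nat.unpair_pair]
          exact ⟨rfl, h5⟩

lemma two_toReal : (2 : ENNReal).toReal = 2 := by norm_num

lemma norm_sq_tsum {α : Type} (f : lp (fun _ : α => 𝕜) 2) : ‖f‖ ^ 2 = ∑' i, ‖f i‖ ^ 2 := by
  have h := lp.norm_rpow_eq_tsum (p := 2) (by norm_num) f
  rw [two_toReal] at h
  simp only [Real.rpow_two] at h
  exact h

lemma summable_sq {α : Type} (f : lp (fun _ : α => 𝕜) 2) : Summable fun i => ‖f i‖ ^ 2 := by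
  have h := (lp.memℓp f).summable (by norm_num)
  rw [two_toReal] at h
  simp only [Real.rpow_two] at h
  exact h

/-- Every vector has a convergent permuted expansion. -/
lemma exists_expansion (v : Esub 𝕜) : ∃ σ : Equiv.Perm ℕ,
    Tendsto (fun M => ∑ i ∈ range M, (coord 𝕜 (Nat.unpair (σ i)) v) • seq 𝕜 (σ i))
      atTop (𝓝 v) := by
  choose ρ hρ hb using fun N => order_block N (fun k => v.1.2 (N, k))
  refine ⟨blockPerm ρ, ?_⟩
  set σ := blockPerm ρ with hσ
  set P : ℕ → Esub 𝕜 := fun M =>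
    ∑ i ∈ range M, (coord 𝕜 (Nat.unpair (σ i)) v) • seq 𝕜 (σ i) with hP
  -- second component
  have h2 : Tendsto (fun M => (P M).1.2) atTop (𝓝 v.1.2) := by
    have h3 := lp.hasSum_single (p := 2) (by norm_num) v.1.2
    let e : ℕ ≃ ℕ × ℕ := σ.trans Nat.pairEquiv.symm
    have h4 := ((Equiv.hasSum_iff e).2 h3).tendsto_sum_nat
    refine h4.congr fun M => ?_
    let sndL : Esub 𝕜 →L[𝕜] lp (fun _ : ℕ × ℕ => 𝕜) 2 :=
      (ContinuousLinearMap.snd 𝕜 (lp (fun _ : ℕ => 𝕜) 2) (lp (fun _ : ℕ × ℕ => 𝕜) 2)).comp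
        (Esub 𝕜).subtypeL
    have h5 : (P M).1.2 = sndL (P M) := rfl
    rw [h5, hP]
    simp only
    rw [map_sum]
    refine Finset.sum_congr rfl fun i _ => ?_
    rw [map_smul]
    have h6 : sndL (seq 𝕜 (σ i)) = lp.single 2 (Nat.unpair (σ i)) (1 : 𝕜) := rfl
    rw [h6, ← lp.single_smul, coord_apply, smul_eq_mul, mul_one]
    rfl
  -- first component
  have hcoordP : ∀ M N, (P M).1.1 N
      = ∑ k ∈ (range N).filter (fun k => Nat.pair N k < M), v.1.2 (N, ρ N k) :=
    fun M N => partial_fst 𝕜 ρ hρ v N M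
  have hsN : ∀ N, v.1.1 N = ∑ k ∈ range N, v.1.2 (N, k) := fun N => v.2 N
  have hbound : ∀ M N, ‖v.1.1 N - (P M).1.1 N‖ ^ 2 ≤
      6 * ‖v.1.1 N‖ ^ 2 + 6 * ∑ k ∈ range N, ‖v.1.2 (N, k)‖ ^ 2 := by
    intro M N
    obtain ⟨K, hK, hKe⟩ := filter_pair_eq_range N M
    have h3 := hb N K hK
    rw [← hsN] at h3
    rw [hcoordP, hKe]
    set t := ∑ k ∈ range K, v.1.2 (N, ρ N k)
    have h4 : ‖v.1.1 N - t‖ ≤ ‖v.1.1 N‖ + ‖t‖ := norm_sub_le _ _
    have h5 : ‖v.1.1 N - t‖ ^ 2 ≤ (‖v.1.1 N‖ + ‖t‖) ^ 2 := by gcongr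
    nlinarith [sq_nonneg (‖v.1.1 N‖ - ‖t‖)]
  have hsummable : Summable fun N =>
      6 * ‖v.1.1 N‖ ^ 2 + 6 * ∑ k ∈ range N, ‖v.1.2 (N, k)‖ ^ 2 := by
    refine ((summable_sq 𝕜 v.1.1).mul_left 6).add (Summable.mul_left 6 ?_)
    have h3 := summable_sq 𝕜 v.1.2
    refine Summable.of_nonneg_of_le (fun N => by positivity) (fun N => ?_) h3.prod
    exact Summable.sum_le_tsum _ (fun k _ => by positivity)
      (h3.comp_injective (i := fun k => (N, k)) fun a b hab => by simpa using hab)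
  have hpt : ∀ N, Tendsto (fun M => ‖v.1.1 N - (P M).1.1 N‖ ^ 2) atTop (𝓝 0) := by
    intro N
    refine tendsto_const_nhds.congr' ?_
    filter_upwards [eventually_ge_atTop (Nat.pair N N)] with M hM
    have h3 : (range N).filter (fun k => Nat.pair N k < M) = range N := by
      refine Finset.filter_true_of_mem fun k hk => ?_
      exact (Nat.pair_lt_pair_right N (mem_range.1 hk)).trans_le hM
    have h4 : ∑ k ∈ range N, v.1.2 (N, ρ N k) = ∑ k ∈ range N, v.1.2 (N, k) :=
      Finset.sum_equiv (ρ N) (fun k => by simpa using hρ N k) (fun k _ => rfl)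
    rw [hcoordP, h3, h4, ← hsN, sub_self, norm_zero, zero_pow two_ne_zero]
  have htsum := tendsto_tsum_of_dominated_convergence (𝓕 := atTop)
    (f := fun (M : ℕ) (N : ℕ) => ‖v.1.1 N - (P M).1.1 N‖ ^ 2) (g := fun _ => (0 : ℝ))
    hsummable hpt (Eventually.of_forall fun M N => by
      rw [Real.norm_of_nonneg (by positivity)]
      exact hbound M N)
  have hnorm : ∀ M, ∑' N, ‖v.1.1 N - (P M).1.1 N‖ ^ 2 = ‖v.1.1 - (P M).1.1‖ ^ 2 := by
    intro M
    rw [norm_sq_tsum]
    rfl
  simp only [hnorm, tsum_zero] at htsum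
  have h1 : Tendsto (fun M => (P M).1.1) atTop (𝓝 v.1.1) := by
    rw [tendsto_iff_norm_sub_tendsto_zero]
    have h3 := (Real.continuous_sqrt.tendsto 0).comp htsum
    rw [Real.sqrt_zero] at h3
    refine h3.congr fun M => ?_
    simp only [Function.comp_apply]
    rw [Real.sqrt_sq (norm_nonneg _), norm_sub_rev]
  rw [tendsto_subtype_rng]
  have h3 := h1.prodMk_nhds h2
  exact h3

lemma propertyU_seq : PropertyU 𝕜 (seq 𝕜) := by
  intro v
  refine ⟨fun n => coord 𝕜 (Nat.unpair n) v, exists_expansion 𝕜 v, ?_⟩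
  intro b π h
  funext n
  exact coef_eq 𝕜 b π v h n

lemma isMinimal_seq : IsMinimal 𝕜 (seq 𝕜) := by
  intro m hm
  have h1 : IsClosed {v : Esub 𝕜 | coord 𝕜 (Nat.unpair m) v = 0} :=
    isClosed_eq (coord 𝕜 (Nat.unpair m)).continuous continuous_const
  have h2 : (Submodule.span 𝕜 (seq 𝕜 '' {n | n ≠ m}) : Set (Esub 𝕜)) ⊆
      {v : Esub 𝕜 | coord 𝕜 (Nat.unpair m) v = 0} := by
    have h3 : Submodule.span 𝕜 (seq 𝕜 '' {n | n ≠ m}) ≤
        LinearMap.ker (coord 𝕜 (Nat.unpair m) : Esub 𝕜 →ₗ[𝕜] 𝕜) := by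
      refine Submodule.span_le.2 ?_
      rintro _ ⟨n, hn, rfl⟩
      have h4 : coord 𝕜 (Nat.unpair m) (seq 𝕜 n) = 0 := by
        rw [coord_seq, if_neg hn]
      exact h4
    intro v hv
    exact h3 hv
  have h3 := closure_minimal h2 h1 hm
  have h4 : coord 𝕜 (Nat.unpair m) (seq 𝕜 m) = 0 := h3
  rw [coord_seq, if_pos rfl] at h4
  exact one_ne_zero h4

lemma separable : TopologicalSpace.SeparableSpace (Esub 𝕜) := by
  have h1 : TopologicalSpace.IsSeparable (Submodule.span 𝕜 (Set.range (seq 𝕜)) : Set (Esub 𝕜)) :=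
    TopologicalSpace.IsSeparable.span (Set.countable_range _).isSeparable
  have h2 : (Set.univ : Set (Esub 𝕜)) ⊆
      closure (Submodule.span 𝕜 (Set.range (seq 𝕜)) : Set (Esub 𝕜)) := by
    intro v _
    obtain ⟨σ, hσ⟩ := exists_expansion 𝕜 v
    refine mem_closure_of_tendsto hσ (Eventually.of_forall fun M => ?_)
    refine Submodule.sum_mem _ fun i _ => Submodule.smul_mem _ _ ?_
    exact Submodule.subset_span ⟨σ i, rfl⟩
  exact TopologicalSpace.isSeparable_univ_iff.1 (h1.closure.mono h2)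

/-- Discrete intermediate values. -/
lemma exists_count (p : ℕ → Prop) [DecidablePred p] (h T : ℕ)
    (hT : h ≤ ((range T).filter p).card) :
    ∃ M, ((range M).filter p).card = h := by
  have hex : ∃ M, h ≤ ((range M).filter p).card := ⟨T, hT⟩
  classical
  let M := Nat.find hex
  have hM : h ≤ ((range M).filter p).card := Nat.find_spec hex
  refine ⟨M, le_antisymm ?_ hM⟩
  rcases Nat.eq_zero_or_pos M with h0 | hpos
  · rw [h0]; simp
  · have hlt : ¬ h ≤ ((range (M - 1)).filter p).card := Nat.find_min hex (by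
      show M - 1 < M; omega)
    have h1 : range M = insert (M - 1) (range (M - 1)) := by
      rw [← Finset.range_add_one]
      congr 1
      omega
    rw [h1, Finset.filter_insert]
    split_ifs
    · refine (Finset.card_insert_le _ _).trans ?_
      omega
    · omega

lemma vec_fst (p : ℕ × ℕ) (N : ℕ) :
    (vec 𝕜 p).1.1 N = if p.1 = N ∧ p.2 < N then 1 else 0 := by
  simp only [vec]
  by_cases hN : p.1 = N
  · by_cases hk : p.2 < N
    · rw [if_pos (by omega), if_pos ⟨hN, hk⟩, ← hN, lp.single_apply_self]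
    · rw [if_neg (by omega), if_neg (by tauto)]
      simp
  · have hc : ¬ (p.1 = N ∧ p.2 < N) := by tauto
    rw [if_neg hc]
    split_ifs
    · rw [lp.single_apply_ne _ _ _ (fun h => hN h.symm)]
    · simp

lemma not_basis (τ : Equiv.Perm ℕ) : ¬ IsSchauderBasis 𝕜 (seq 𝕜 ∘ τ) := by
  intro hbasis
  have : CompleteSpace (Esub 𝕜) := (isClosed_Esub 𝕜).completeSpace_coe
  -- the expansion along `τ` has the coordinates as coefficients
  have hexp : ∀ v : Esub 𝕜, Tendsto
      (fun M => ∑ i ∈ range M, (coord 𝕜 (Nat.unpair (τ i)) v) • seq 𝕜 (τ i)) atTop (𝓝 v) := by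
    intro v
    obtain ⟨a, ha, -⟩ := hbasis v
    have h1 : ∀ i, a i = coord 𝕜 (Nat.unpair (τ i)) v := by
      intro i
      have h2 := coef_eq 𝕜 (fun n => a (τ.symm n)) τ v (by
        simpa using ha) (τ i)
      simpa using h2
    simpa [h1] using ha
  let P : ℕ → (Esub 𝕜 →L[𝕜] Esub 𝕜) := fun M =>
    ∑ i ∈ range M, (coord 𝕜 (Nat.unpair (τ i))).smulRight (seq 𝕜 (τ i))
  have hPapply : ∀ M v, P M v = ∑ i ∈ range M, (coord 𝕜 (Nat.unpair (τ i)) v) • seq 𝕜 (τ i) := by
    intro M v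
    simp [P]
  obtain ⟨C, hC⟩ := banach_steinhaus (g := P) (fun v => by
    have h1 : Tendsto (fun M => P M v) atTop (𝓝 v) := by
      simpa only [hPapply] using hexp v
    obtain ⟨C, hC⟩ := (Metric.isBounded_range_of_tendsto _ h1).exists_norm_le
    exact ⟨C, fun M => hC _ ⟨M, rfl⟩⟩)
  have hC0 : 0 ≤ C := (norm_nonneg _).trans (hC 0)
  obtain ⟨h, hh⟩ := exists_nat_gt (2 * C ^ 2)
  have hhpos : (0 : ℝ) < h := lt_of_le_of_lt (by positivity) hh
  set N := 2 * h with hN
  let p : ℕ → Prop := fun i => (Nat.unpair (τ i)).1 = N ∧ (Nat.unpair (τ i)).2 < N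
  let g : ℕ → ℕ := fun k => τ.symm (Nat.pair N k)
  have hg : Function.Injective g := fun a b hab => by
    have h1 := τ.symm.injective hab
    have h2 := congrArg Nat.unpair h1
    simpa using h2
  have hcard : ∀ M, ((range M).filter p).card = ((range N).filter (fun k => g k < M)).card := by
    intro M
    symm
    refine Finset.card_bij (fun k _ => g k) ?_ ?_ ?_
    · intro k hk
      simp only [mem_filter, mem_range] at hk ⊢
      refine ⟨hk.2, ?_⟩
      simp only [p, g, Equiv.apply_symm_apply, Nat.unpair_pair]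
      exact ⟨trivial, hk.1⟩
    · intro a _ b _ hab
      exact hg hab
    · intro i hi
      simp only [mem_filter, mem_range, p] at hi
      obtain ⟨hiM, hi1, hi2⟩ := hi
      have h1 : g (Nat.unpair (τ i)).2 = i := by
        simp only [g]
        rw [← hi1, Nat.pair_unpair, Equiv.symm_apply_apply]
      refine ⟨(Nat.unpair (τ i)).2, ?_, h1⟩
      simp only [mem_filter, mem_range]
      exact ⟨hi2, by rw [h1]; exact hiM⟩
  obtain ⟨M, hM⟩ : ∃ M, ((range M).filter p).card = h := by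
    refine exists_count p h ((range N).sup g + 1) ?_
    rw [hcard, Finset.filter_true_of_mem, card_range]
    · omega
    · intro k hk
      exact Nat.lt_succ_of_le (Finset.le_sup (f := g) hk)
  let ε : ℕ × ℕ → 𝕜 := fun q => if τ.symm (Nat.pair q.1 q.2) < M then 1 else -1
  let v : Esub 𝕜 := ∑ k ∈ range N, ε (N, k) • vec 𝕜 (N, k)
  let fstL : Esub 𝕜 →L[𝕜] lp (fun _ : ℕ => 𝕜) 2 :=
    (ContinuousLinearMap.fst 𝕜 (lp (fun _ : ℕ => 𝕜) 2) (lp (fun _ : ℕ × ℕ => 𝕜) 2)).comp
      (Esub 𝕜).subtypeL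
  let sndL : Esub 𝕜 →L[𝕜] lp (fun _ : ℕ × ℕ => 𝕜) 2 :=
    (ContinuousLinearMap.snd 𝕜 (lp (fun _ : ℕ => 𝕜) 2) (lp (fun _ : ℕ × ℕ => 𝕜) 2)).comp
      (Esub 𝕜).subtypeL
  -- the sum of the signs vanishes
  have hsign : ∑ k ∈ range N, ε (N, k) = 0 := by
    have h1 : ∑ k ∈ range N, ε (N, k)
        = ∑ k ∈ range N, (2 * (if g k < M then (1 : 𝕜) else 0) - 1) := by
      refine Finset.sum_congr rfl fun k _ => ?_
      simp only [ε, g]
      split_ifs <;> ring
    rw [h1, Finset.sum_sub_distrib, ← Finset.mul_sum, Finset.sum_boole, ← hcard, hM]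
    simp only [sum_const, card_range, nsmul_eq_mul, mul_one, hN]
    push_cast
    ring
  have hfst : fstL v = 0 := by
    simp only [v]
    rw [map_sum]
    have h1 : ∀ k ∈ range N, fstL (ε (N, k) • vec 𝕜 (N, k))
        = ε (N, k) • (lp.single 2 N (1 : 𝕜) : lp (fun _ : ℕ => 𝕜) 2) := by
      intro k hk
      rw [map_smul]
      congr 1
      show (vec 𝕜 (N, k)).1.1 = _
      simp only [vec]
      rw [if_pos (mem_range.1 hk)]
    rw [Finset.sum_congr rfl h1, ← Finset.sum_smul, hsign, zero_smul]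
  have hsnd : ‖sndL v‖ ^ 2 = N := by
    have h1 : sndL v = ∑ q ∈ (range N).image (fun k => (N, k)), lp.single 2 q (ε q) := by
      rw [Finset.sum_image (fun a _ b _ hab => by simpa using hab)]
      simp only [v]
      rw [map_sum]
      refine Finset.sum_congr rfl fun k _ => ?_
      rw [map_smul]
      have h2 : sndL (vec 𝕜 (N, k)) = lp.single 2 (N, k) (1 : 𝕜) := rfl
      rw [h2, ← lp.single_smul, smul_eq_mul, mul_one]
    have h2 := lp.norm_sum_single (E := fun _ : ℕ × ℕ => 𝕜) (p := 2) (by norm_num) ε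
      ((range N).image (fun k => (N, k)))
    rw [two_toReal] at h2
    simp only [Real.rpow_two] at h2
    rw [h1, h2, Finset.sum_image (fun a _ b _ hab => by simpa using hab)]
    have h3 : ∀ k ∈ range N, ‖ε (N, k)‖ ^ 2 = 1 := by
      intro k _
      simp only [ε]
      split_ifs <;> simp
    rw [Finset.sum_congr rfl h3]
    simp
  have hvnorm : ‖v‖ ^ 2 = N := by
    have h1 : ‖v‖ = max ‖fstL v‖ ‖sndL v‖ := rfl
    rw [h1, hfst, norm_zero, max_eq_right (norm_nonneg _), hsnd]
  -- the coordinate of the partial sum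
  have hcoordv : ∀ k, k < N → coord 𝕜 (N, k) v = ε (N, k) := by
    intro k hk
    simp only [v]
    rw [map_sum, Finset.sum_eq_single k]
    · rw [map_smul, coord_vec, if_pos rfl, smul_eq_mul, mul_one]
    · intro j _ hj
      rw [map_smul, coord_vec, if_neg, smul_zero]
      intro h1
      exact hj (by simpa using (congrArg Prod.snd h1).symm)
    · intro h1
      exact absurd (mem_range.2 hk) h1
  have hPM : (P M v).1.1 N = (h : 𝕜) := by
    rw [hPapply]
    have h1 : (∑ i ∈ range M, (coord 𝕜 (Nat.unpair (τ i)) v) • seq 𝕜 (τ i)).1.1 N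
        = ∑ i ∈ range M, (coord 𝕜 (Nat.unpair (τ i)) v) * (seq 𝕜 (τ i)).1.1 N := by
      have h2 : ∀ w : Esub 𝕜, w.1.1 N
          = (lp.evalCLM 𝕜 (fun _ : ℕ => 𝕜) 2 N).comp fstL w := fun w => rfl
      rw [h2, map_sum]
      refine Finset.sum_congr rfl fun i _ => ?_
      rw [map_smul]
      rfl
    rw [h1]
    have h2 : ∀ i ∈ range M, (coord 𝕜 (Nat.unpair (τ i)) v) * (seq 𝕜 (τ i)).1.1 N
        = if p i then 1 else 0 := by
      intro i hi
      rw [seq, vec_fst]
      by_cases hp : p i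
      · rw [if_pos hp, mul_one]
        have h3 : Nat.unpair (τ i) = (N, (Nat.unpair (τ i)).2) := by
          rw [← hp.1]
        rw [h3, hcoordv _ hp.2]
        simp only [ε]
        rw [← hp.1, Nat.pair_unpair, Equiv.symm_apply_apply, if_pos (mem_range.1 hi)]
      · rw [if_neg hp, mul_zero]
    rw [Finset.sum_congr rfl h2, Finset.sum_boole, hM]
  have h1 : (h : ℝ) ≤ ‖P M v‖ := by
    have h2 : ‖(P M v).1.1 N‖ ≤ ‖(P M v).1.1‖ := lp.norm_apply_le_norm (by norm_num) _ _
    have h3 : ‖(P M v).1.1‖ ≤ ‖P M v‖ := norm_fst_le (P M v).1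
    rw [hPM] at h2
    have h4 : ‖(h : 𝕜)‖ = h := by simp
    rw [h4] at h2
    exact h2.trans h3
  have h2 : ‖P M v‖ ≤ C * ‖v‖ := (P M).le_of_opNorm_le (hC M) v
  have h3 : (h : ℝ) ^ 2 ≤ C ^ 2 * N := by
    calc (h : ℝ) ^ 2 ≤ (C * ‖v‖) ^ 2 := by
          have := h1.trans h2
          gcongr
      _ = C ^ 2 * N := by rw [mul_pow, hvnorm]
  rw [hN] at h3
  push_cast at h3
  nlinarith

/-- The example: over `𝕜 = ℝ` or `ℂ` there are a separable Banach space and a minimal sequence
with property (U) none of whose permutations is a Schauder basis. -/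
theorem result : ∃ (E : Type) (_ : NormedAddCommGroup E) (_ : NormedSpace 𝕜 E)
    (_ : CompleteSpace E) (_ : TopologicalSpace.SeparableSpace E) (x : ℕ → E),
    PropertyU 𝕜 x ∧ IsMinimal 𝕜 x ∧ ∀ τ : Equiv.Perm ℕ, ¬ IsSchauderBasis 𝕜 (x ∘ τ) :=
  ⟨Esub 𝕜, inferInstance, inferInstance, (isClosed_Esub 𝕜).completeSpace_coe, separable 𝕜,
    seq 𝕜, propertyU_seq 𝕜, isMinimal_seq 𝕜, not_basis 𝕜⟩


end space

end Pool.Agent.Results.MP_514f39_an.NoPermutationIsBasis
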